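import Mathlib

/-!
# An infinite finitely generated torsion group exists (Grigorchuk's first group)
-/

set_option autoImplicit false

namespace Pool.Agent.H33.RD

namespace Grig

open Equiv

/-- Permutations of the vertices of the binary tree. -/
abbrev W : Type := Perm (List Bool)

/-- The action of a pair below the root. -/
def psi (g h : W) : W where
  toFun
    | [] => []
    | false :: w => false :: g w
    | true :: w => true :: h w
  invFun
    | [] => []
    | false :: w => false :: g.symm w
    | true :: w => true :: h.symm w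
  left_inv := by
    intro w
    match w with
    | [] => rfl
    | false :: w => simp
    | true :: w => simp
  right_inv := by
    intro w
    match w with
    | [] => rfl
    | false :: w => simp
    | true :: w => simp

@[simp] theorem psi_nil (g h : W) : psi g h [] = [] := rfl
@[simp] theorem psi_false (g h : W) (w : List Bool) : psi g h (false :: w) = false :: g w := rfl
@[simp] theorem psi_true (g h : W) (w : List Bool) : psi g h (true :: w) = true :: h w := rfl

theorem W_ext {g h : W} (h0 : g [] = h []) (h1 : ∀ w, g (false :: w) = h (false :: w))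
    (h2 : ∀ w, g (true :: w) = h (true :: w)) : g = h := by
  ext1 w
  match w with
  | [] => exact h0
  | false :: w => exact h1 w
  | true :: w => exact h2 w

theorem psi_mul (g h g' h' : W) : psi g h * psi g' h' = psi (g * g') (h * h') := by
  apply W_ext <;> intros <;> simp

theorem psi_one : psi 1 1 = 1 := by
  apply W_ext <;> intros <;> simp

theorem psi_inv (g h : W) : (psi g h)⁻¹ = psi g⁻¹ h⁻¹ := by
  rw [inv_eq_iff_mul_eq_one, psi_mul, mul_inv_cancel, mul_inv_cancel, psi_one]

theorem psi_pow (g h : W) (n : ℕ) : psi g h ^ n = psi (g ^ n) (h ^ n) := by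
  induction n with
  | zero => simp [psi_one]
  | succ n ih => rw [pow_succ, ih, psi_mul, ← pow_succ, ← pow_succ]

/-- The involution exchanging the two subtrees. -/
def a : W where
  toFun
    | [] => []
    | x :: w => (!x) :: w
  invFun
    | [] => []
    | x :: w => (!x) :: w
  left_inv := by
    intro w
    match w with
    | [] => rfl
    | x :: w => simp
  right_inv := by
    intro w
    match w with
    | [] => rfl
    | x :: w => simp

@[simp] theorem a_nil : a [] = [] := rfl
@[simp] theorem a_cons (x : Bool) (w : List Bool) : a (x :: w) = (!x) :: w := rfl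

@[simp] theorem a_mul_a : a * a = 1 := by
  apply W_ext <;> intros <;> simp

theorem a_mul_psi (g h : W) : a * psi g h = psi h g * a := by
  apply W_ext <;> intros <;> simp

/-- The Klein four group, written additively. -/
abbrev K : Type := ZMod 2 × ZMod 2

def al (k : K) : ZMod 2 := k.1 + k.2

def be (k : K) : K := (k.2, k.1 + k.2)

theorem al_add (k l : K) : al (k + l) = al k + al l := by
  simp [al]; ring

theorem be_add (k l : K) : be (k + l) = be k + be l := by
  simp [be]; ring

def aPow (z : ZMod 2) : W := if z = 0 then 1 else a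

theorem zmod2 (z : ZMod 2) : z = 0 ∨ z = 1 := by revert z; decide

theorem aPow_add (y z : ZMod 2) : aPow (y + z) = aPow y * aPow z := by
  rcases zmod2 y with h | h <;> rcases zmod2 z with h' | h' <;> subst h <;> subst h' <;>
    simp [aPow]
  exact fun h => absurd (by decide) h

def act : K → List Bool → List Bool
  | _, [] => []
  | k, false :: w => false :: aPow (al k) w
  | k, true :: w => true :: act (be k) w

theorem act_zero (w : List Bool) : act 0 w = w := by
  induction w with
  | nil => rfl
  | cons x w ih =>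
    cases x
    · simp [act, al, aPow]
    · have : be 0 = 0 := rfl
      simp [act, this, ih]

theorem act_add (w : List Bool) : ∀ k l : K, act (k + l) w = act k (act l w) := by
  induction w with
  | nil => intro k l; rfl
  | cons x w ih =>
    intro k l
    cases x
    · simp [act, al_add, aPow_add]
    · simp [act, be_add, ih]

theorem K_add_self (k : K) : k + k = 0 := by revert k; decide

/-- The action of the Klein four group `{1, b, c, d}`. -/
def rho (k : K) : W where
  toFun := act k
  invFun := act k
  left_inv := by intro w; rw [← act_add, K_add_self, act_zero]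
  right_inv := by intro w; rw [← act_add, K_add_self, act_zero]

theorem rho_apply (k : K) (w : List Bool) : rho k w = act k w := rfl

theorem rho_zero : rho 0 = 1 := by ext1 w; simp [rho_apply, act_zero]

theorem rho_add (k l : K) : rho (k + l) = rho k * rho l := by
  ext1 w; simp [rho_apply, act_add]

theorem rho_mul_self (k : K) : rho k * rho k = 1 := by
  rw [← rho_add, K_add_self, rho_zero]

theorem rho_inv (k : K) : (rho k)⁻¹ = rho k := by
  rw [inv_eq_iff_mul_eq_one]; exact rho_mul_self k

theorem a_inv : a⁻¹ = a := by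
  rw [inv_eq_iff_mul_eq_one]; exact a_mul_a

theorem rho_eq (k : K) : rho k = psi (aPow (al k)) (rho (be k)) := by
  apply W_ext <;> intros <;> simp [rho_apply, act]

/-- `a k₁ a k₂ ⋯ a kₙ`. -/
def ev : List K → W
  | [] => 1
  | k :: L => a * rho k * ev L

theorem ev_append (L M : List K) : ev (L ++ M) = ev L * ev M := by
  induction L with
  | nil => simp [ev]
  | cons k L ih => simp [ev, ih, mul_assoc]

mutual
def u : List K → W
  | [] => 1
  | k :: L => rho (be k) * v L
def v : List K → W
  | [] => 1
  | k :: L => aPow (al k) * u L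
end

theorem ev_eq (L : List K) : ev L = psi (u L) (v L) * a ^ L.length := by
  induction L with
  | nil => simp [ev, u, v, psi_one]
  | cons k L ih =>
    rw [ev, ih, rho_eq k, List.length_cons, pow_succ', mul_assoc, ← mul_assoc (psi _ _), psi_mul,
      ← mul_assoc, a_mul_psi, mul_assoc]
    simp [u, v]

/-- `g` is a product of elements of `{1, b, c, d}` and `n` letters `a`. -/
def R (n : ℕ) (g : W) : Prop := ∃ (k : K) (L : List K), L.length = n ∧ g = rho k * ev L

theorem R_mul {m n : ℕ} {g h : W} (hg : R m g) (hh : R n h) : R (m + n) (g * h) := by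
  obtain ⟨k, L, hL, rfl⟩ := hg
  obtain ⟨l, M, hM, rfl⟩ := hh
  rcases List.eq_nil_or_concat L with rfl | ⟨L', x, rfl⟩
  · refine ⟨k + l, M, ?_, ?_⟩
    · simp at hL; omega
    · rw [rho_add]; simp [ev, mul_assoc]
  · refine ⟨k, L' ++ [x + l] ++ M, ?_, ?_⟩
    · simp at hL ⊢; omega
    · simp [ev_append, ev, rho_add, mul_assoc]

theorem R_rho (k : K) : R 0 (rho k) := ⟨k, [], rfl, by simp [ev]⟩

theorem R_one : R 0 1 := ⟨0, [], rfl, by simp [ev, rho_zero]⟩

theorem R_a : R 1 a := ⟨0, [0], rfl, by simp [ev, rho_zero]⟩

/-- number of entries with `α = a` -/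
def cnt (z : ZMod 2) : ℕ := if z = 0 then 0 else 1

theorem R_aPow (z : ZMod 2) : R (cnt z) (aPow z) := by
  unfold cnt aPow
  split_ifs
  · exact R_one
  · exact R_a

mutual
def cu : List K → ℕ
  | [] => 0
  | _ :: L => cv L
def cv : List K → ℕ
  | [] => 0
  | k :: L => cnt (al k) + cu L
end

theorem R_uv (L : List K) : R (cu L) (u L) ∧ R (cv L) (v L) := by
  induction L with
  | nil => exact ⟨by simpa [u, cu] using R_one, by simpa [v, cv] using R_one⟩
  | cons k L ih =>
    refine ⟨?_, ?_⟩
    · have := R_mul (R_rho (be k)) ih.2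
      simpa [u, cu] using this
    · have := R_mul (R_aPow (al k)) ih.1
      simpa [v, cv] using this

theorem cnt_le (z : ZMod 2) : cnt z ≤ 1 := by unfold cnt; split_ifs <;> omega

theorem cuv_le (L : List K) : 2 * cu L ≤ L.length ∧ 2 * cv L ≤ L.length + 1 := by
  induction L with
  | nil => simp [cu, cv]
  | cons k L ih =>
    have := cnt_le (al k)
    simp only [cu, cv, List.length_cons]
    omega

theorem cuv_sum_le (L : List K) : cu L + cv L ≤ L.length := by
  induction L with
  | nil => simp [cu, cv]
  | cons k L ih =>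
    have := cnt_le (al k)
    simp only [cu, cv, List.length_cons]
    omega

theorem cuv_sum_lt (L : List K) (h : ∃ k ∈ L, al k = 0) : cu L + cv L < L.length := by
  induction L with
  | nil => simp at h
  | cons k L ih =>
    have h1 := cnt_le (al k)
    have h2 := cuv_sum_le L
    obtain ⟨x, hx, hx0⟩ := h
    rcases List.mem_cons.1 hx with rfl | hx
    · have : cnt (al x) = 0 := by simp [cnt, hx0]
      simp only [cu, cv, List.length_cons]
      omega
    · have := ih ⟨x, hx, hx0⟩
      simp only [cu, cv, List.length_cons]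
      omega

mutual
def p : List K → List K
  | [] => []
  | k :: L => be k :: q L
def q : List K → List K
  | [] => []
  | _ :: L => p L
end

theorem a_pow_add_two (n : ℕ) : a ^ (n + 2) = a ^ n := by
  rw [pow_add, pow_two, a_mul_a, mul_one]

theorem ev_pq (L : List K) (h : ∀ k ∈ L, al k = 1) :
    ev (p L) = a * u L * a ^ (L.length + 1) ∧ ev (q L) = v L * a ^ L.length := by
  induction L with
  | nil => simp [p, q, u, v, ev]
  | cons k L ih =>
    have ih' := ih (fun x hx => h x (List.mem_cons_of_mem _ hx))
    have hk : aPow (al k) = a := by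
      rw [h k (List.mem_cons_self)]; simp [aPow]
    constructor
    · rw [p, ev, ih'.2, u, List.length_cons, add_assoc, a_pow_add_two]
      simp [mul_assoc]
    · rw [q, ih'.1, v, List.length_cons, hk]

theorem pq_length (L : List K) : (p L).length + (q L).length = L.length := by
  induction L with
  | nil => simp [p, q]
  | cons k L ih => simp only [p, q, List.length_cons]; omega

theorem pq_mem (L : List K) (x : K) (hx : x ∈ p L ++ q L) : ∃ k ∈ L, x = be k := by
  induction L with
  | nil => simp [p, q] at hx
  | cons k L ih =>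
    simp only [p, q, List.cons_append, List.mem_cons, List.mem_append] at hx
    rcases hx with rfl | hx | hx
    · exact ⟨k, List.mem_cons_self, rfl⟩
    · obtain ⟨l, hl, rfl⟩ := ih (List.mem_append.2 (Or.inr hx))
      exact ⟨l, List.mem_cons_of_mem _ hl, rfl⟩
    · obtain ⟨l, hl, rfl⟩ := ih (List.mem_append.2 (Or.inl hx))
      exact ⟨l, List.mem_cons_of_mem _ hl, rfl⟩

/-! ### Torsion -/

theorem psi_fin {g h : W} (hg : IsOfFinOrder g) (hh : IsOfFinOrder h) :
    IsOfFinOrder (psi g h) := by
  rw [isOfFinOrder_iff_pow_eq_one] at *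
  obtain ⟨m, hm, hgm⟩ := hg
  obtain ⟨n, hn, hhn⟩ := hh
  refine ⟨m * n, by positivity, ?_⟩
  rw [psi_pow, pow_mul, hgm, one_pow, mul_comm m n, pow_mul, hhn, one_pow, psi_one]

theorem fin_of_sq {g : W} (hg : IsOfFinOrder (g * g)) : IsOfFinOrder g := by
  rw [isOfFinOrder_iff_pow_eq_one] at *
  obtain ⟨m, hm, hgm⟩ := hg
  refine ⟨2 * m, by positivity, ?_⟩
  rw [pow_mul, pow_two, hgm]

theorem fin_conj {g h : W} (hg : IsOfFinOrder (h * g * h⁻¹)) : IsOfFinOrder g := by
  rw [isOfFinOrder_iff_pow_eq_one] at *
  obtain ⟨m, hm, hgm⟩ := hg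
  refine ⟨m, hm, ?_⟩
  rw [conj_pow] at hgm
  have := mul_inv_eq_one.1 hgm
  exact mul_left_cancel (a := h) (by rw [this, mul_one])

theorem fin_comm {g h : W} (hg : IsOfFinOrder (g * h)) : IsOfFinOrder (h * g) := by
  apply fin_conj (h := g)
  rwa [← mul_assoc, mul_inv_cancel_right]

theorem odd_sq (L : List K) (hL : L.length % 2 = 1) :
    ev L * ev L = psi (u L * v L) (v L * u L) := by
  have h1 : a ^ L.length = a := by
    obtain ⟨m, hm⟩ : ∃ m, L.length = 2 * m + 1 := ⟨L.length / 2, by omega⟩
    rw [hm, pow_succ, pow_mul, pow_two, a_mul_a, one_pow, one_mul]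
  rw [ev_eq, h1, mul_assoc, ← mul_assoc a, a_mul_psi, mul_assoc, a_mul_a, mul_one, psi_mul]

theorem even_ev (L : List K) (hL : L.length % 2 = 0) : ev L = psi (u L) (v L) := by
  have h1 : a ^ L.length = 1 := by
    obtain ⟨m, hm⟩ : ∃ m, L.length = 2 * m := ⟨L.length / 2, by omega⟩
    rw [hm, pow_mul, pow_two, a_mul_a, one_pow]
  rw [ev_eq, h1, mul_one]

/-- one step of the odd case -/
theorem odd_step {n : ℕ} (ih : ∀ m < n, ∀ g, R m g → IsOfFinOrder g) (hn : n % 2 = 1)
    (L : List K) (hL : L.length = n)
    (hnext : (∀ k ∈ L, al k = 1) → ∀ M : List K, M.length = n → (∀ x ∈ M, ∃ k ∈ L, x = be k) →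
      IsOfFinOrder (ev M)) : IsOfFinOrder (ev L) := by
  apply fin_of_sq
  rw [odd_sq L (by rw [hL]; exact hn)]
  have key : IsOfFinOrder (u L * v L) := by
    by_cases h : ∃ k ∈ L, al k = 0
    · have h1 := cuv_sum_lt L h
      exact ih _ (by rw [← hL]; exact h1) _ (R_mul (R_uv L).1 (R_uv L).2)
    · push Not at h
      have h' : ∀ k ∈ L, al k = 1 := fun k hk => (zmod2 (al k)).resolve_left (h k hk)
      have h2 := hnext h' (p L ++ q L) (by rw [List.length_append, pq_length, hL]) (pq_mem L)
      obtain ⟨e1, e2⟩ := ev_pq L h'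
      obtain ⟨m, hm⟩ : ∃ m, L.length = 2 * m + 1 := ⟨L.length / 2, by omega⟩
      have h3 : a ^ (2 * m + 1 + 1) = 1 := by
        rw [show 2 * m + 1 + 1 = 2 * (m + 1) by ring, pow_mul, pow_two, a_mul_a, one_pow]
      have h4 : a ^ (2 * m + 1) = a := by
        rw [pow_succ, pow_mul, pow_two, a_mul_a, one_pow, one_mul]
      rw [ev_append, e1, e2, hm, h3, h4, mul_one] at h2
      apply fin_conj (h := a)
      rw [a_inv]
      simpa [mul_assoc] using h2
  exact psi_fin key (fin_comm key)

theorem torsion_R (n : ℕ) : ∀ g, R n g → IsOfFinOrder g := by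
  induction n using Nat.strong_induction_on with
  | _ n ih =>
    -- it suffices to treat `ev L`
    have main : ∀ L : List K, L.length = n → IsOfFinOrder (ev L) := by
      intro L hL
      rcases Nat.mod_two_eq_zero_or_one n with hn | hn
      · rcases Nat.eq_zero_or_pos n with rfl | hpos
        · rw [List.length_eq_zero_iff.1 hL]
          exact isOfFinOrder_iff_pow_eq_one.2 ⟨1, one_pos, one_pow 1⟩
        rw [even_ev L (by rw [hL]; exact hn)]
        have h1 := cuv_le L
        exact psi_fin (ih _ (by omega) _ (R_uv L).1) (ih _ (by omega) _ (R_uv L).2)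
      · apply odd_step ih hn L hL
        intro hLa M hM hMb
        apply odd_step ih hn M hM
        intro hMa N hN hNb
        apply odd_step ih hn N hN
        intro hNa
        exfalso
        have hN0 : N ≠ [] := by
          rintro rfl; simp at hN; omega
        obtain ⟨x, hx⟩ := List.exists_mem_of_ne_nil N hN0
        obtain ⟨y, hy, rfl⟩ := hNb x hx
        obtain ⟨z, hz, rfl⟩ := hMb y hy
        have h1 := hLa z hz
        have h2 := hMa _ hy
        have h3 := hNa _ hx
        revert h1 h2 h3
        clear hx hy hz hNb hMb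
        revert z
        decide
    rintro g ⟨k, L, hL, rfl⟩
    rcases List.eq_nil_or_concat L with rfl | ⟨L', x, rfl⟩
    · rw [isOfFinOrder_iff_pow_eq_one]
      refine ⟨2, by norm_num, ?_⟩
      simp [ev, pow_two, rho_mul_self]
    · apply fin_comm
      have h1 : ev (L' ++ [x]) * rho k = ev (L' ++ [x + k]) := by
        simp [ev_append, ev, rho_add, mul_assoc]
      rw [List.concat_eq_append] at hL ⊢
      rw [h1]
      apply main
      simp at hL ⊢
      exact hL

/-! ### The group -/

/-- Grigorchuk's group. -/
def G : Subgroup W := Subgroup.closure ({a} ∪ Set.range rho)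

theorem a_mem : a ∈ G := Subgroup.subset_closure (Or.inl rfl)
theorem rho_mem (k : K) : rho k ∈ G := Subgroup.subset_closure (Or.inr ⟨k, rfl⟩)

theorem exists_R {g : W} (hg : g ∈ G) : ∃ n, R n g := by
  induction hg using Subgroup.closure_induction with
  | mem x hx =>
    rcases hx with hx | ⟨k, rfl⟩
    · rw [Set.mem_singleton_iff] at hx
      subst hx
      exact ⟨1, R_a⟩
    · exact ⟨0, R_rho k⟩
  | one => exact ⟨0, R_one⟩
  | mul x y _ _ hx hy =>
    obtain ⟨m, hm⟩ := hx
    obtain ⟨n, hn⟩ := hy
    exact ⟨_, R_mul hm hn⟩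
  | inv x _ hx =>
    obtain ⟨m, k, L, -, hxL⟩ := hx
    rw [hxL, mul_inv_rev, rho_inv]
    clear hxL
    have : ∃ n, R n (ev L)⁻¹ := by
      induction L with
      | nil => exact ⟨0, by simpa [ev] using R_one⟩
      | cons k L ih =>
        obtain ⟨n, hn⟩ := ih
        refine ⟨n + (0 + 1), ?_⟩
        rw [ev, mul_inv_rev, mul_inv_rev, rho_inv, a_inv]
        exact R_mul hn (R_mul (R_rho k) R_a)
    obtain ⟨n, hn⟩ := this
    exact ⟨_, R_mul hn (R_rho k)⟩

theorem exists_psi {g : W} (hg : g ∈ G) : ∃ g0 : W, psi g0 g ∈ G := by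
  induction hg using Subgroup.closure_induction with
  | mem x hx =>
    rcases hx with hx | ⟨k, rfl⟩
    · rw [Set.mem_singleton_iff] at hx
      subst hx
      refine ⟨rho (be (1, 0)), ?_⟩
      have : psi (rho (be (1, 0))) a = a * rho (1, 0) * a := by
        rw [rho_eq (1, 0), a_mul_psi, mul_assoc, a_mul_a, mul_one]
        simp [al, aPow]
      rw [this]
      exact G.mul_mem (G.mul_mem a_mem (rho_mem _)) a_mem
    · refine ⟨aPow (al (be (be k))), ?_⟩
      have h : be (be (be k)) = k := by revert k; decide
      have := rho_mem (be (be k))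
      rwa [rho_eq, h] at this
  | one => exact ⟨1, by rw [psi_one]; exact G.one_mem⟩
  | mul x y _ _ hx hy =>
    obtain ⟨x0, hx0⟩ := hx
    obtain ⟨y0, hy0⟩ := hy
    refine ⟨x0 * y0, ?_⟩
    rw [← psi_mul]
    exact G.mul_mem hx0 hy0
  | inv x _ hx =>
    obtain ⟨x0, hx0⟩ := hx
    refine ⟨x0⁻¹, ?_⟩
    rw [← psi_inv]
    exact G.inv_mem hx0

instance infinite_G : Infinite G := by
  by_contra hfin
  rw [not_infinite_iff_finite] at hfin
  choose f hf using fun g : G => exists_psi g.2
  let F : G → G := fun g => ⟨psi (f g) g, hf g⟩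
  have hinj : Function.Injective F := by
    intro g h hgh
    have h1 : psi (f g) g = psi (f h) h := congrArg Subtype.val hgh
    apply Subtype.ext
    ext1 w
    have h2 := congrArg (fun e : W => e (true :: w)) h1
    simpa using h2
  have hsurj := Finite.surjective_of_injective hinj
  obtain ⟨g, hg⟩ := hsurj ⟨a, a_mem⟩
  have h1 : psi (f g) g = a := congrArg Subtype.val hg
  have h2 := congrArg (fun e : W => e [true]) h1
  simp at h2

theorem torsion_G : Monoid.IsTorsion G := by
  intro g
  obtain ⟨n, hn⟩ := exists_R g.2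
  have := torsion_R n g.1 hn
  rw [isOfFinOrder_iff_pow_eq_one] at this ⊢
  obtain ⟨m, hm, h⟩ := this
  exact ⟨m, hm, Subtype.ext (by simpa using h)⟩

theorem fg_G : Group.FG G := by
  rw [Group.fg_iff_subgroup_fg]
  have hfin : ({a} ∪ Set.range rho : Set W).Finite := (Set.finite_singleton a).union (Set.finite_range rho)
  exact ⟨hfin.toFinset, by rw [hfin.coe_toFinset]; rfl⟩

end Grig

/-- **An infinite finitely generated torsion group exists.** -/
theorem exists_torsion :
    ∃ (T : Type) (_ : Group T), Infinite T ∧ Monoid.IsTorsion T ∧ Group.FG T :=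
  ⟨Grig.G, inferInstance, Grig.infinite_G, Grig.torsion_G, Grig.fg_G⟩

end Pool.Agent.H33.RD
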